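import Mathlib
import Pool.Agent.Lib.Pc2352a.DegTwoD

/-!
# Non-factorial nodal threefolds of degree 4, 5, 6 in `ℙ⁴`

`X = {F = 0} ⊂ ℙ⁴`, `F` a form of degree `d ∈ {4, 5, 6}` in five variables over `ℂ`, all singular points of `X` are nodes, and
there are at most `N(d) = 2 (d - 2) (d - 1)` of them.  Then `X` is non-factorial (some prime divisor is not Cartier at some
point) if and only if `X` contains a plane or an irreducible quadric surface; and if `X` contains a surface `{h = q = 0}` of
degree two (irreducible, reducible or double), then this surface is irreducible and `X` has exactly `N(d)` nodes.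
-/

open MvPolynomial
open Pool.Agent.Lib.Pc2352a hiding Poly
open Pool.Agent.Lib.Pc2352a.DegTwo

namespace Pool.Agent.Results.MP_c2352a_ag.PlanesAndQuadrics

/-- polynomials in five variables -/
abbrev Poly := MvPolynomial (Fin 5) ℂ

/-- All singular points of `F = 0` in `ℙ⁴` are nodes: at every nonzero vector at which all partial derivatives of `F` vanish
the Hessian matrix has rank four. -/
def IsNodal (F : Poly) : Prop :=
  ∀ v : Fin 5 → ℂ, v ≠ 0 → (∀ i, eval v (pderiv i F) = 0) →
    (Matrix.of fun i j : Fin 5 => eval v (pderiv i (pderiv j F))).rank = 4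

/-- the set of the singular points of `F = 0` in `ℙ⁴` -/
def nodes (F : Poly) : Set (Projectivization ℂ (Fin 5 → ℂ)) :=
  {p | eval p.rep F = 0 ∧ ∀ i : Fin 5, eval p.rep (pderiv i F) = 0}

/-- `P` is the homogeneous ideal of a prime divisor (an irreducible surface) on `F = 0`. -/
structure IsPrimeDivisor (F : Poly) (P : Ideal Poly) : Prop where
  prime : P.IsPrime
  homogeneous : ∀ p ∈ P, ∀ k, homogeneousComponent k p ∈ P
  mem : F ∈ P
  height : P.height = 2

/-- The prime divisor `P` on `F = 0` is Cartier at the point `v`: near `v` its ideal is generated by one element modulo `F`. -/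
def IsCartierAt (F : Poly) (P : Ideal Poly) (v : Fin 5 → ℂ) : Prop :=
  ∃ G ∈ P, ∃ s : Poly, eval v s ≠ 0 ∧ ∀ p ∈ P, s * p ∈ Ideal.span {F, G}

/-- `F = 0` is factorial: every prime divisor, hence every Weil divisor, is Cartier at every point. -/
def IsFactorial (F : Poly) : Prop :=
  ∀ P, IsPrimeDivisor F P → ∀ v : Fin 5 → ℂ, v ≠ 0 → eval v F = 0 → IsCartierAt F P v

/-- `F = 0` contains a plane `h = l = 0` (`h`, `l` independent linear forms). -/
def ContainsPlane (F : Poly) : Prop :=
  ∃ h l : Poly, h.IsHomogeneous 1 ∧ l.IsHomogeneous 1 ∧ h ≠ 0 ∧ ¬ h ∣ l ∧ F ∈ Ideal.span {h, l}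

/-- `h = q = 0` is a surface of degree two (irreducible, a union of two planes, or a double plane), contained in `F = 0`. -/
structure ContainsDegreeTwo (F h q : Poly) : Prop where
  linear : h.IsHomogeneous 1
  ne : h ≠ 0
  quadratic : q.IsHomogeneous 2
  not_dvd : ¬ h ∣ q
  mem : F ∈ Ideal.span {h, q}

/-- the quadratic form `q` is irreducible on the hyperplane `h = 0`: it is not a product of two linear forms there -/
def IsIrreducibleOn (h q : Poly) : Prop :=
  ∀ a b : Poly, a.IsHomogeneous 1 → b.IsHomogeneous 1 → ¬ h ∣ q - a * b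

/-- **Non-factorial nodal threefolds of degree 4, 5, 6 with at most `N(d)` nodes.** -/
theorem result (d : ℕ) (hd : d = 4 ∨ d = 5 ∨ d = 6) (F : Poly) (hF : F.IsHomogeneous d)
    (hn : IsNodal F) (hc : (nodes F).encard ≤ ((2 * (d - 2) * (d - 1) : ℕ) : ℕ∞)) :
    (¬ IsFactorial F ↔
      ContainsPlane F ∨ ∃ h q, ContainsDegreeTwo F h q ∧ IsIrreducibleOn h q) ∧
    ∀ h q, ContainsDegreeTwo F h q →
      (nodes F).encard = ((2 * (d - 2) * (d - 1) : ℕ) : ℕ∞) ∧ IsIrreducibleOn h q := by
  have hd3 : 3 ≤ d := by omega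
  refine ⟨⟨fun hfac => ?_, ?_⟩, fun h q hq => ?_⟩
  · unfold IsFactorial at hfac
    push Not at hfac
    obtain ⟨P, hP, v, hv, hvF, hcar⟩ := hfac
    have h1 : ∀ G : Poly, P ≠ Ideal.span {F, G} := by
      intro G hG
      apply hcar
      refine ⟨G, ?_, 1, ?_, fun p hp => ?_⟩
      · rw [hG]
        exact Ideal.subset_span (by simp)
      · rw [map_one]
        exact one_ne_zero
      · rw [one_mul, ← hG]
        exact hp
    obtain ⟨h2, -⟩ := Asm.final d F hd hF (fun p _ hs => hn p.rep p.rep_nonzero hs) hc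
      ⟨P, hP.prime, hP.mem, hP.height, h1⟩
    rcases h2 with h2 | h2
    · exact Or.inl (plane_ideal h2)
    · obtain ⟨h, q, g1, g2, g3, g4, g5, g6⟩ := quadric_ideal h2
      exact Or.inr ⟨h, q, ⟨g1, g2, g3, g4, g5⟩, g6⟩
  · rintro (⟨h, l, hh, hl, h0, hhl, hF'⟩ | ⟨h, q, hq, hirr⟩) hfac
    · obtain ⟨P, p1, p2, p3, p4, v, hv, hvF, hcar⟩ := exists_noncartier hd3 hF hh h0 hl le_rfl
        (by omega) (fun L _ hLh => Quat.linear_irreducible (pull_mem L hl)
          (fun h1 => hhl ((pull_eq_zero_iff hh h0 hLh l).1 h1))) hF'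
      exact hcar (hfac P ⟨p1, p2, p3, p4⟩ v hv hvF)
    · obtain ⟨P, p1, p2, p3, p4, v, hv, hvF, hcar⟩ := exists_noncartier hd3 hF hq.linear hq.ne
        hq.quadratic (by omega) le_rfl
        (irreducible_pull hq.linear hq.ne hq.quadratic hq.not_dvd hirr) hq.mem
      exact hcar (hfac P ⟨p1, p2, p3, p4⟩ v hv hvF)
  · exact degTwo d hd3 F hF hn hc h q hq.linear hq.ne hq.quadratic hq.not_dvd hq.mem

end Pool.Agent.Results.MP_c2352a_ag.PlanesAndQuadrics
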